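import Pool.Agent.H889R3.SA.Stmts
import Pool.Agent.H572R4.QA.B6b

/-! Tasks B1 and B2 of project H889-SA. -/

set_option autoImplicit false

namespace Pool.Agent.H889R3.SA

open Finset Pool.Agent.H572R2 Pool.Agent.H572R4.QA

theorem fh_rs_eq {N : ℕ} (f : (Fin N → Bool) → ℝ) (j : Fin N) (b : Bool) (T : Finset (Fin N))
    (hj : j ∉ T) : fh (rs j b f) T = EE (rs j b (fun x => f x * ∏ i ∈ T, sg (x i))) := by
  unfold fh
  apply EE_congr
  intro x
  unfold rs
  have : ∏ i ∈ T, sg (Function.update x j b i) = ∏ i ∈ T, sg (x i) := by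
    apply Finset.prod_congr rfl
    intro i hi
    have hne : i ≠ j := fun h => hj (h ▸ hi)
    rw [Function.update_of_ne hne]
  show f (Function.update x j b) * ∏ i ∈ T, sg (x i) =
    f (Function.update x j b) * ∏ i ∈ T, sg (Function.update x j b i)
  rw [this]

theorem fh_rs_ins {N : ℕ} (f : (Fin N → Bool) → ℝ) (j : Fin N) (b : Bool) (T : Finset (Fin N))
    (hj : j ∉ T) : sg b * fh (rs j b f) T =
      EE (rs j b (fun x => f x * ∏ i ∈ insert j T, sg (x i))) := by
  unfold fh
  rw [← EE_mul]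
  apply EE_congr
  intro x
  unfold rs
  have : ∏ i ∈ T, sg (Function.update x j b i) = ∏ i ∈ T, sg (x i) := by
    apply Finset.prod_congr rfl
    intro i hi
    have hne : i ≠ j := fun h => hj (h ▸ hi)
    rw [Function.update_of_ne hne]
  show sg b * (f (Function.update x j b) * ∏ i ∈ T, sg (x i)) =
    f (Function.update x j b) * ∏ i ∈ insert j T, sg (Function.update x j b i)
  rw [Finset.prod_insert hj, Function.update_self, this]
  ring

theorem taskB1 : TaskB1 := by
  intro N f j T hj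
  have h1 := EE_rs (fun x => f x * ∏ i ∈ T, sg (x i)) j
  have h2 := EE_rs (fun x => f x * ∏ i ∈ insert j T, sg (x i)) j
  rw [← fh_rs_eq f j _ T hj, ← fh_rs_eq f j _ T hj] at h1
  rw [← fh_rs_ins f j _ T hj, ← fh_rs_ins f j _ T hj] at h2
  have e1 : EE (fun x => f x * ∏ i ∈ T, sg (x i)) = fh f T := rfl
  have e2 : EE (fun x => f x * ∏ i ∈ insert j T, sg (x i)) = fh f (insert j T) := rfl
  rw [e1] at h1
  rw [e2] at h2
  have s1 : sg true = 1 := by simp [sg]
  have s2 : sg false = -1 := by simp [sg]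
  rw [s1, s2] at h2
  constructor <;> linarith

theorem taskB2 : TaskB2 := by
  intro N f i T hf hi
  have h1 : fh f T = EE (fun x => (fun y => f y * ∏ k ∈ T, sg (y k)) (flp i x)) :=
    (EE_flp i (fun y => f y * ∏ k ∈ T, sg (y k))).symm
  have h2 : EE (fun x => (fun y => f y * ∏ k ∈ T, sg (y k)) (flp i x)) = -1 * fh f T := by
    unfold fh
    rw [← EE_mul]
    apply EE_congr
    intro x
    show f (flp i x) * ∏ k ∈ T, sg (flp i x k) = -1 * (f x * ∏ k ∈ T, sg (x k))
    rw [hf, ← Finset.mul_prod_erase T _ hi, ← Finset.mul_prod_erase T _ hi, flp_same]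
    have h3 : ∏ k ∈ T.erase i, sg (flp i x k) = ∏ k ∈ T.erase i, sg (x k) := by
      apply Finset.prod_congr rfl
      intro k hk
      rw [flp_ne (Finset.ne_of_mem_erase hk)]
    have h4 : sg (!(x i)) = - sg (x i) := by
      cases x i <;> simp [sg]
    rw [h3, h4]
    ring
  linarith

end Pool.Agent.H889R3.SA
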